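import Pool.Agent.E8helper14.Pot.Final2

/-!
# MP_e9ee98_al, Q1: free products of potent groups

Main theorem. Let `φ` be a homomorphism from `A * B` to a finite group, let `x` be in `A * B` and let
`e` be the order of `φ x`. If `x ^ e` is not in the normal closure of the kernels of `φ` on `A` and
on `B`, then every positive multiple of `e` is the order of the image of `x` in a finite quotient of
`A * B`.

Consequences. If `A` and `B` are residually finite, then every positive integer is the order of the
image of `y` in a finite quotient, for each `y ≠ 1` in the Cartesian subgroup, the kernel of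
`A * B → A × B`. For potent `A` and `B`, the condition of potency holds for every `x` in `A * B` and
every `n` that divides, or is divisible by, the order of the image of `x` in `A × B`; the potency of
`A * B` is decided by prime orders; and it holds if `A` and `B` are torsion-free.

Proof: let first `φ` be injective on `A` and `B` and `φ y = 1`, `y ≠ 1`. Then `A * B` acts on the
regular representation of `C` over `ℤ[t]` by `a ↦ P_a` and `b ↦ (1 + t N) P_b (1 - t N)`, where `N`
has rank one, `N² = 0` and `N P_c N = N` for `c ≠ 1`. The coefficient of the highest power of `t`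
shows that `y` acts nontrivially, and `y` acts trivially modulo `t`. Put `t = p ^ s` and reduce
modulo `p ^ m`: the image of `y` lies in a normal `p`-subgroup of a finite group and has large order;
by a Frattini argument there is a further quotient in which its order is the given power of `p`.
-/

set_option autoImplicit false

namespace Pool.Agent.Results.MP_e9ee98_al.CartesianSubgroupH14

open Monoid.Coprod

/-- The order of the image of `x` under some surjective homomorphism onto a finite group is `n`. -/
def HasImageOfOrder {G : Type} [Group G] (x : G) (n : ℕ) : Prop :=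
  ∃ (Q : Type) (_ : Group Q) (_ : Finite Q) (f : G →* Q), Function.Surjective f ∧ orderOf (f x) = n

/-- `G` is potent. (`orderOf x = 0` if `x` has infinite order.) -/
def Potent (G : Type) [Group G] : Prop :=
  ∀ x : G, ∀ n : ℕ, 0 < n → n ∣ orderOf x → HasImageOfOrder x n

/-- `G` is residually finite. -/
def ResiduallyFinite (G : Type) [Group G] : Prop :=
  ∀ x : G, x ≠ 1 → ∃ (Q : Type) (_ : Group Q) (_ : Finite Q) (f : G →* Q), f x ≠ 1

/-- `G` is torsion-free. -/
def TorsionFree (G : Type) [Group G] : Prop := ∀ x : G, x ≠ 1 → orderOf x = 0

/-- The normal closure in `A * B` of the kernels of `φ` on `A` and on `B`. -/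
def FactorKernels {A B C : Type} [Group A] [Group B] [Group C] (φ : Monoid.Coprod A B →* C) :
    Subgroup (Monoid.Coprod A B) :=
  Subgroup.normalClosure {w | φ w = 1 ∧ ((∃ a : A, w = inl a) ∨ ∃ b : B, w = inr b)}

theorem surj {G : Type} [Group G] {x : G} {n : ℕ} :
    HasImageOfOrder x n ↔ Pool.Agent.E8helper14.Pot.Att x n := by
  constructor
  · rintro ⟨Q, gQ, fQ, f, _, hf⟩
    exact ⟨Q, gQ, fQ, f, hf⟩
  · rintro ⟨Q, gQ, fQ, f, hf⟩
    refine ⟨f.range, inferInstance, inferInstance, f.rangeRestrict, f.rangeRestrict_surjective, ?_⟩
    rw [← hf, ← Subgroup.orderOf_coe]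
    rfl

theorem potent_iff {G : Type} [Group G] : Potent G ↔ Pool.Agent.E8helper14.Pot.Potent G := by
  unfold Potent Pool.Agent.E8helper14.Pot.Potent
  simp only [surj]

/-- The main theorem (first statement) and its consequences:
elements of the Cartesian subgroup of a free product of residually finite groups;
potent `A`, `B`: all `x`, and all `n` comparable by divisibility with the order `e` of the image
of `x` in `A × B` (with `e = 0` if this order is infinite);
the potency of `A * B` is decided by prime orders;
the free product of two torsion-free potent groups is potent and torsion-free. -/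
theorem result :
    (∀ (A B C : Type) [Group A] [Group B] [Group C] [Finite C] (φ : Monoid.Coprod A B →* C)
      (x : Monoid.Coprod A B), x ^ orderOf (φ x) ∉ FactorKernels φ →
        ∀ m : ℕ, 0 < m → HasImageOfOrder x (orderOf (φ x) * m)) ∧
    (∀ (A B : Type) [Group A] [Group B], ResiduallyFinite A → ResiduallyFinite B →
      ∀ y : Monoid.Coprod A B, y ≠ 1 → toProd y = 1 → ∀ n : ℕ, 0 < n → HasImageOfOrder y n) ∧
    (∀ (A B : Type) [Group A] [Group B], Potent A → Potent B →
      (∀ (x : Monoid.Coprod A B) (n : ℕ), 0 < n → n ∣ orderOf x →
        (n ∣ orderOf (toProd x) ∨ orderOf (toProd x) ∣ n) → HasImageOfOrder x n) ∧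
      ((∀ x : Monoid.Coprod A B, orderOf x = 0 → ∀ p : ℕ, p.Prime →
        ∃ (C : Type) (_ : Group C) (_ : Finite C) (φ : Monoid.Coprod A B →* C),
          φ x ^ p = 1 ∧ x ^ p ∉ FactorKernels φ) → Potent (Monoid.Coprod A B)) ∧
      (TorsionFree A → TorsionFree B →
        Potent (Monoid.Coprod A B) ∧ TorsionFree (Monoid.Coprod A B))) := by
  refine ⟨?_, ?_, ?_⟩
  · intro A B C _ _ _ _ φ x hx m hm
    rw [surj]
    exact Pool.Agent.E8helper14.Pot.att_general φ x hx m hm
  · intro A B _ _ hA hB y hy h n hn
    rw [surj]
    have h1 : fst y = 1 := by rw [← fst_toProd, h]; rfl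
    have h2 : snd y = 1 := by rw [← snd_toProd, h]; rfl
    exact Pool.Agent.E8helper14.Pot.att_cartesian hA hB y hy h1 h2 n hn
  · intro A B _ _ hA hB
    rw [potent_iff] at hA hB
    refine ⟨?_, ?_, ?_⟩
    · intro x n hn hd hc
      rw [surj]
      apply Pool.Agent.E8helper14.Pot.att_of_comparable hA hB x n hn hd
      rwa [Prod.orderOf, fst_toProd, snd_toProd] at hc
    · intro h
      rw [potent_iff]
      exact Pool.Agent.E8helper14.Pot.potent_of_primes hA hB h
    · intro tA tB
      rw [potent_iff]
      exact ⟨Pool.Agent.E8helper14.Pot.potent_coprod hA hB tA tB,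
        Pool.Agent.E8helper14.Pot.tf_coprod hA.rf hB.rf tA tB⟩

end Pool.Agent.Results.MP_e9ee98_al.CartesianSubgroupH14
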